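import Mathlib

namespace Pool.Agent.Results.MP_93d976_co.Counter

open Finset

abbrev Cube := ℕ × ℕ × ℕ

/-- the box `C(k, l, m)` -/
def box (k l m : ℕ) : Finset Cube := Icc 1 k ×ˢ Icc 1 l ×ˢ Icc 1 m

/-- cubes sharing a face -/
def nb (p q : Cube) : Prop := p.1.dist q.1 + p.2.1.dist q.2.1 + p.2.2.dist q.2.2 = 1

instance : DecidableRel nb := by unfold nb; infer_instance

/-- delete a cube with exactly three neighbours in the current position -/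
def Move (P Q : Finset Cube) : Prop := ∃ p ∈ P, (P.filter (nb p)).card = 3 ∧ Q = P.erase p

def HasSol (k l m : ℕ) : Prop :=
  ∃ S, Relation.ReflTransGen Move (box k l m) S ∧ ∀ p ∈ S, ∀ q ∈ S, ¬ nb p q

def ok : List Cube → Finset Cube → Bool
  | [], P => decide (∀ p ∈ P, ∀ q ∈ P, ¬ nb p q)
  | p :: l, P => decide (p ∈ P ∧ (P.filter (nb p)).card = 3) && ok l (P.erase p)

theorem sound (l : List Cube) : ∀ P, ok l P = true →
    ∃ S, Relation.ReflTransGen Move P S ∧ ∀ p ∈ S, ∀ q ∈ S, ¬ nb p q := by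
  induction l with
  | nil => exact fun P h => ⟨P, .refl, of_decide_eq_true h⟩
  | cons p l ih =>
    intro P h
    simp only [ok, Bool.and_eq_true, decide_eq_true_eq] at h
    obtain ⟨S, h1, h2⟩ := ih _ h.2
    exact ⟨S, .head ⟨p, h.1.1, h.1.2, rfl⟩ h1, h2⟩

theorem result : HasSol 2 3 9 ∧ HasSol 3 3 6 :=
  ⟨sound [(1,3,9), (1,3,8), (2,3,8), (1,3,7), (1,3,6), (2,3,6), (1,3,5), (1,3,4), (2,3,4), (1,1,1),
  (1,1,2), (2,1,2), (1,3,3), (1,1,3), (1,2,3), (1,2,2), (2,2,2), (2,3,2), (1,2,4), (1,2,5),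
  (1,1,5), (2,1,5), (2,1,6), (2,1,7), (2,1,8), (2,2,8), (2,2,9), (2,2,7), (2,2,5), (2,2,3),
  (2,2,1), (2,1,4), (1,3,1), (1,2,8), (1,2,6), (1,1,9), (1,1,7)] _ (by decide +kernel),
   sound [(1,1,6), (2,1,6), (1,2,6), (2,2,6), (2,3,6), (1,3,1), (1,3,2), (1,3,3), (1,3,4), (1,3,5),
  (2,3,5), (3,3,5), (2,3,4), (2,3,3), (3,3,3), (3,3,1), (3,2,6), (3,1,1), (3,1,2), (3,1,3),
  (3,1,4), (2,3,2), (2,1,1), (1,2,1), (2,2,1), (2,1,2), (2,2,2), (1,1,2), (1,1,3), (1,2,3),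
  (2,2,3), (1,2,4), (2,2,4), (3,2,4), (3,2,2), (3,1,5), (2,2,5), (2,1,4), (1,1,5)] _ (by decide +kernel)⟩

end Pool.Agent.Results.MP_93d976_co.Counter
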